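import Pool.Agent.H715.TW.Stm

/-!
# `S_T3`: if the cubic has a rational root then its norm form represents everything
-/

namespace Pool.Agent.H678.TW

open Pool.Agent.H715.TW

theorem t3_aux (a r k s : ℚ) (hs : s ≠ 0) (hs' : s = r ^ 2 + r) (ha : a * s = r ^ 3 - 3 * r - 1) :
    Nf a (1 + k * (r + 1)) (k * (s + 2 * r + 1)) (k * s) = 1 + k * (s + 1) ^ 2 := by
  have ha' : a = (r ^ 3 - 3 * r - 1) / s := by rw [eq_div_iff hs]; exact ha
  unfold Nf
  have h1 : ∀ x : ℚ, s ^ 2 * x = 0 → x = 0 := by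
    intro x hx
    rcases mul_eq_zero.mp hx with h | h
    · exact absurd (pow_eq_zero_iff (by norm_num) |>.mp h) hs
    · exact h
  rw [← sub_eq_zero]
  apply h1
  subst ha'
  field_simp
  subst hs'
  ring

theorem t3 : S_T3 := by
  intro a N _ ⟨r, hr⟩
  have hs : r ^ 2 + r ≠ 0 := by
    intro h
    have h2 : r * (r + 1) = 0 := by linear_combination h
    rcases mul_eq_zero.mp h2 with h3 | h3
    · rw [h3] at hr; norm_num at hr
    · have : r = -1 := by linear_combination h3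
      rw [this] at hr; linarith
  have hq : r ^ 2 + r + 1 ≠ 0 := by nlinarith [sq_nonneg (2 * r + 1)]
  have h := t3_aux a r ((N - 1) / (r ^ 2 + r + 1) ^ 2) (r ^ 2 + r) hs rfl
    (by linear_combination -hr)
  refine ⟨_, _, _, h.trans ?_⟩
  have h2 : (N - 1) / (r ^ 2 + r + 1) ^ 2 * (r ^ 2 + r + 1) ^ 2 = N - 1 :=
    div_mul_cancel₀ _ (pow_ne_zero 2 hq)
  rw [h2]; ring

end Pool.Agent.H678.TW
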